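import Mathlib
import Pool.Agent.Y451.AM.Stm
import Pool.Agent.Y433.FM.Mar

/-! # Project AM: finite Borel colourings for free actions of countable groups (helper182) -/

set_option autoImplicit false

namespace Pool.Agent.Y182.AM.Col

open MeasureTheory Pool.Agent.Y451.AM

/-- a natural number outside a finite set, at most its cardinality -/
theorem exists_ch (S : Finset ℕ) : ∃ j, j ∉ S ∧ j ≤ S.card := by
  have h : S.card < (Finset.range (S.card + 1)).card := by simp
  obtain ⟨j, hj, hjS⟩ := Finset.exists_mem_notMem_of_card_lt_card h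
  exact ⟨j, hjS, by rw [Finset.mem_range] at hj; omega⟩

noncomputable def ch (S : Finset ℕ) : ℕ := (exists_ch S).choose

theorem ch_notMem (S : Finset ℕ) : ch S ∉ S := (exists_ch S).choose_spec.1

theorem ch_le (S : Finset ℕ) : ch S ≤ S.card := (exists_ch S).choose_spec.2

open Classical in
/-- the greedy colour computed from the data at the neighbours -/
noncomputable def nxt {Γ : Type} (E : Finset Γ) (m : ℕ) (d : {e : Γ // e ∈ E} → ℕ × ℕ) : ℕ :=
  ch ((Finset.univ.filter fun e => (d e).2 < m).image fun e => (d e).1)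

open Classical in
/-- the greedy colouring -/
noncomputable def KK {Γ X : Type} (a : Γ → X → X) (E : Finset Γ) (c : X → ℕ) : ℕ → X → ℕ
  | 0 => fun _ => 0
  | m + 1 => fun x =>
      if c x = m then nxt E m (fun e => (KK a E c m (a e.1 x), c (a e.1 x))) else KK a E c m x

theorem nxt_le {Γ : Type} (E : Finset Γ) (m : ℕ) (d : {e : Γ // e ∈ E} → ℕ × ℕ) :
    nxt E m d ≤ E.card := by
  classical
  refine (ch_le _).trans ?_
  refine Finset.card_image_le.trans ?_
  refine (Finset.card_filter_le _ _).trans ?_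
  simp

theorem KK_le {Γ X : Type} (a : Γ → X → X) (E : Finset Γ) (c : X → ℕ) (m : ℕ) (x : X) :
    KK a E c m x ≤ E.card := by
  induction m with
  | zero => simp [KK]
  | succ m ih =>
    simp only [KK]
    split_ifs
    · exact nxt_le _ _ _
    · exact ih

theorem KK_stable {Γ X : Type} (a : Γ → X → X) (E : Finset Γ) (c : X → ℕ) (x : X) (m : ℕ)
    (h : c x < m) : KK a E c m x = KK a E c (c x + 1) x := by
  induction m, (show c x + 1 ≤ m from h) using Nat.le_induction with
  | base => rfl
  | succ m hm ih =>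
    rw [← ih (by omega)]
    conv_lhs => unfold KK
    rw [if_neg (by omega)]

theorem KK_meas {Γ X : Type} [MeasurableSpace X] (a : Γ → X → X) (ha : ∀ g, Measurable (a g))
    (E : Finset Γ) (c : X → ℕ) (hc : Measurable c) (m : ℕ) : Measurable (KK a E c m) := by
  classical
  induction m with
  | zero => exact measurable_const
  | succ m ih =>
    have hd : Measurable fun x : X =>
        (fun e : {e : Γ // e ∈ E} => (KK a E c m (a e.1 x), c (a e.1 x))) :=
      measurable_pi_lambda _ fun e => (ih.comp (ha e.1)).prodMk (hc.comp (ha e.1))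
    have h1 : Measurable (nxt E m) := Measurable.of_discrete
    refine Measurable.ite (hc (measurableSet_singleton m)) (h1.comp hd) ih

theorem KK_proper {Γ X : Type} [Group Γ] [MeasurableSpace X] (a : Γ → X → X) (E : Finset Γ)
    (c : X → ℕ) (x : X) (e : Γ) (he : e ∈ E) (h : c (a e x) < c x) :
    KK a E c (c x + 1) x ≠ KK a E c (c (a e x) + 1) (a e x) := by
  classical
  intro h1
  have h2 : KK a E c (c x + 1) x =
      nxt E (c x) (fun e => (KK a E c (c x) (a e.1 x), c (a e.1 x))) := by
    conv_lhs => unfold KK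
    rw [if_pos rfl]
  rw [← KK_stable a E c (a e x) (c x) h, h2] at h1
  refine ch_notMem ((Finset.univ.filter fun e' : {e : Γ // e ∈ E} =>
    c (a e'.1 x) < c x).image fun e' => KK a E c (c x) (a e'.1 x)) ?_
  unfold nxt at h1
  simp only at h1
  rw [h1]
  exact Finset.mem_image.2 ⟨⟨e, he⟩, Finset.mem_filter.2 ⟨Finset.mem_univ _, h⟩, rfl⟩

/-- **AM-COL**. -/
theorem col : Pool.Agent.Y451.AM.S_COL := by
  classical
  intro Γ _ _ X _ _ a hA D
  obtain ⟨B, hBm, hB⟩ := Pool.Agent.Y433.FM.Mar.exists_sepfam X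
  set E : Finset Γ := ((D ×ˢ D).image fun p => p.1 * p.2⁻¹).erase 1 with hE
  have hE1 : ∀ e ∈ E, e ≠ 1 := fun e he => (Finset.mem_erase.1 he).1
  have hEinv : ∀ e ∈ E, e⁻¹ ∈ E := by
    intro e he
    obtain ⟨h1, h2⟩ := Finset.mem_erase.1 he
    obtain ⟨p, hp, hpe⟩ := Finset.mem_image.1 h2
    rw [Finset.mem_product] at hp
    refine Finset.mem_erase.2 ⟨by simpa using h1, Finset.mem_image.2 ⟨(p.2, p.1), ?_, ?_⟩⟩
    · exact Finset.mem_product.2 ⟨hp.2, hp.1⟩
    · rw [← hpe]; simp
  -- the countable colouring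
  have hex : ∀ x : X, ∃ i, x ∈ B i ∧ ∀ e ∈ E, a e x ∉ B i := by
    intro x
    obtain ⟨i, hi1, hi2⟩ := hB x ((fun g : Γ => a g x) '' (E : Set Γ))
      (E.finite_toSet.image _) (by
        rintro ⟨g, hg, h⟩
        exact hE1 g hg (hA.free g x h))
    exact ⟨i, hi1, fun e he => hi2 _ ⟨e, he, rfl⟩⟩
  have hm : ∀ i, MeasurableSet {x : X | x ∈ B i ∧ ∀ e ∈ E, a e x ∉ B i} := by
    intro i
    have : {x : X | x ∈ B i ∧ ∀ e ∈ E, a e x ∉ B i} = B i ∩ ⋂ e ∈ E, ((a e) ⁻¹' B i)ᶜ := by
      ext x
      simp only [Set.mem_ofPred_eq, Set.mem_inter_iff, Set.mem_iInter, Set.mem_compl_iff,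
        Set.mem_preimage]
    rw [this]
    exact (hBm i).inter (Finset.measurableSet_biInter _ fun e _ => ((hA.meas e) (hBm i)).compl)
  set c : X → ℕ := fun x => Nat.find (hex x) with hc
  have hcm : Measurable c := measurable_find hex hm
  have hcp : ∀ x, ∀ e ∈ E, c (a e x) ≠ c x := by
    intro x e he h
    have h1 := Nat.find_spec (hex x)
    have h2 := Nat.find_spec (hex (a e x))
    have h3 : Nat.find (hex (a e x)) = Nat.find (hex x) := h
    rw [h3] at h2
    exact h1.2 e he h2.1
  set κ : X → ℕ := fun x => KK a E c (c x + 1) x with hκ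
  have hκm : Measurable κ := by
    have h1 : Measurable fun p : X × ℕ => KK a E c (p.2 + 1) p.1 :=
      measurable_from_prod_countable_left fun m => KK_meas a hA.meas E c hcm (m + 1)
    exact h1.comp (measurable_id.prodMk hcm)
  have hκp : ∀ x, ∀ e ∈ E, κ (a e x) ≠ κ x := by
    intro x e he h
    rcases lt_or_gt_of_ne (hcp x e he) with h1 | h1
    · exact KK_proper a E c x e he h1 h.symm
    · have hb : a e⁻¹ (a e x) = x := by rw [← hA.mul, inv_mul_cancel, hA.one]
      have := KK_proper a E c (a e x) e⁻¹ (hEinv e he) (by rw [hb]; exact h1)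
      rw [hb] at this
      exact this h
  refine ⟨E.card + 1, fun x => ⟨κ x, Nat.lt_succ_of_le (KK_le a E c _ x)⟩, ?_, ?_⟩
  · refine measurable_to_countable' fun i => ?_
    have : (fun x => (⟨κ x, Nat.lt_succ_of_le (KK_le a E c _ x)⟩ : Fin (E.card + 1))) ⁻¹' {i} =
        κ ⁻¹' {(i : ℕ)} := by
      ext x
      simp only [Set.mem_preimage, Set.mem_singleton_iff, Fin.ext_iff]
    rw [this]
    exact hκm (measurableSet_singleton _)
  · intro x g hg h hh heq
    by_contra hne
    have hEm : h * g⁻¹ ∈ E := by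
      refine Finset.mem_erase.2 ⟨?_, Finset.mem_image.2 ⟨(h, g), Finset.mem_product.2 ⟨hh, hg⟩,
        rfl⟩⟩
      intro h1
      exact hne (mul_inv_eq_one.1 h1).symm
    have h2 := hκp (a g x) (h * g⁻¹) hEm
    rw [← hA.mul, inv_mul_cancel_right] at h2
    exact h2 (Fin.ext_iff.1 heq).symm

end Pool.Agent.Y182.AM.Col
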